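import Mathlib
import Pool.Agent.Helper15.Expansion
import Pool.Agent.Helper15.AllN.Defs
import Pool.Agent.Helper15.AllN.Final

/-!
The asymptotic expansion conjecture fails for the quantum `SU(N)` invariants of a graph manifold,
for every `N ≥ 2`: the invariant has a logarithmic term.
-/

open Pool.Agent.Helper15 Pool.Agent.Helper15.AllN
open scoped Real

namespace Pool.Agent.Results.MP_1d444f_gt.GraphManifoldLog

theorem result (N : ℕ) (hN : 2 ≤ N) (f : ℤ) (m : ℕ) (c : Fin (m + 1) → ℝ) :
    ¬ HasExpansion N
      (fun k : ℕ => Complex.exp (2 * π * Complex.I * centralCharge N k / 24) ^ f *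
        Z N k twoTori) m c := by
  refine no_expansion_twoTori N hN _ (fun k => ?_) m c
  have h1 : (2 * π * Complex.I * centralCharge N k / 24 : ℂ) =
      ((2 * π * centralCharge N k / 24 : ℝ) : ℂ) * Complex.I := by
    push_cast
    ring
  rw [norm_zpow, h1, Complex.norm_exp_ofReal_mul_I, one_zpow]

end Pool.Agent.Results.MP_1d444f_gt.GraphManifoldLog
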