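import Pool.Agent.Helper24.AEC.Defs
import Pool.Agent.Helper24.AEC.Assemble
import Pool.Agent.Helper15.Expansion
import Pool.Agent.Helper4.AEC.LogBounds

/-!
The asymptotic expansion conjecture fails for the quantum `SU(2)` invariants, defined by surgery
presentations and the Kauffman bracket: the invariant of the Hantzsche–Wendt manifold contains a
logarithm of `r = k + 2`.
-/

namespace Pool.Agent.Results.MP_1d444f_gt.SkeinLogTerm

open Pool.Agent.Helper24.AEC Pool.Agent.Helper15 Pool.Agent.Helper4.AEC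

theorem norm_Z (t : ℤ) (k : ℕ) : ‖Z hwDiagram t k‖ = ‖Zc k‖ := by
  rw [Z_hw, norm_mul]
  have h : (2 * Real.pi * Complex.I * centralCharge k / 24 * t : ℂ) =
      ((2 * Real.pi * centralCharge k / 24 * t : ℝ) : ℂ) * Complex.I := by
    push_cast; ring
  rw [h, Complex.norm_exp_ofReal_mul_I, one_mul]
  rfl

theorem result : ∃ (n : ℕ) (D : List (Piece (Fin n))), IsLinkDiagram D ∧
    ∀ (t : ℤ) (m : ℕ) (c : Fin (m + 1) → ℝ), ¬ HasExpansion 2 (Z D t) m c := by
  refine ⟨6, hwDiagram, hw_isLinkDiagram, fun t m c => ?_⟩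
  refine no_expansion (by norm_num) 1 ?_ ?_
  · simp only [norm_Z]; exact Zc_low
  · simp only [norm_Z]; exact Zc_up

end Pool.Agent.Results.MP_1d444f_gt.SkeinLogTerm
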