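import Mathlib
import Pool.Agent.Helper15.RT.Final

/-!
Disproof of the asymptotic expansion conjecture for every `SU(N)`, `N ≥ 2`: the invariants, defined
from the R-matrix of the vector representation of `U_q(sl_N)` by the surgery formula of
Reshetikhin and Turaev, of the 3-manifold obtained by surgery on an explicit 5-component link have
no asymptotic expansion of the conjectured form, whatever the phases and the 2-framing.
-/

namespace Pool.Agent.Results.MP_1d444f_gt.SurgeryLog

open Pool.Agent.Helper15 Pool.Agent.Helper15.RT

/-- For every `N ≥ 2` there is a framed pure braid `L` such that, for every 2-framing number `f`,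
the sequence of level `k` quantum `SU(N)` invariants of the closed oriented 3-manifold obtained by
surgery on the closure of `L` has no asymptotic expansion of the form asserted by the asymptotic
expansion conjecture, for any finite list of phases `c_0, ..., c_m`. -/
theorem result (N : ℕ) (hN : 2 ≤ N) : ∃ L : FramedPureBraid, ∀ (f : ℤ) (m : ℕ)
    (c : Fin (m + 1) → ℝ), ¬ HasExpansion N (fun k => Z N k f L) m c :=
  ⟨link5 N, fun f m c => main hN f m c⟩

end Pool.Agent.Results.MP_1d444f_gt.SurgeryLog
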